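import Pool.Agent.Lib.H8.Qm4

/-!
A quasi-minimal enumeration degree that computes a non-computable continuous functional.
-/

namespace Pool.Agent.Results.MP_9a65c4_lc.Yes

open Pool.Agent.Lib.H8 Wei CList Qm Classical

/-- `p` is a name of `A` in the enumeration space. -/
def Name (A : Set ℕ) (p : ℕ → ℕ) : Prop := ∀ k, k ∈ A ↔ ∃ n, p n = k + 1

/-- `α`, a function on codes of finite sequences, is a Kleene associate of `Φ`. -/
def Assoc (Φ : (ℕ → ℕ) → ℕ) (α : ℕ → ℕ) : Prop :=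
  ∀ f : ℕ → ℕ, (∃ k, α (Encodable.encode (pre f k)) ≠ 0) ∧
    ∀ k, α (Encodable.encode (pre f k)) ≠ 0 →
      α (Encodable.encode (pre f k)) = Φ f + 1 ∧
      α (Encodable.encode (pre f (k + 1))) = α (Encodable.encode (pre f k))

lemma name_ext (A : Set ℕ) (τ : List ℕ) (h : ∀ c ∈ τ, c ≠ 0 → c - 1 ∈ A) :
    ∃ p, Name A p ∧ pre p τ.length = τ := by
  refine ⟨fun n => τ.getD n (if n - τ.length ∈ A then n - τ.length + 1 else 0), fun k =>
    ⟨fun a => ⟨τ.length + k, by simp [a]⟩, fun ⟨n, a⟩ => ?_⟩,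
    List.ext_getElem (by simp) fun i h1 h2 => by simp [pre, h2]⟩
  by_cases m : n < τ.length
  · simp only [List.getD_eq_getElem _ _ m] at a
    simpa [a] using h _ (List.getElem_mem m)
  · simp only [List.getD_eq_default _ _ (not_lt.1 m)] at a
    split_ifs at a with b
    rwa [← Nat.succ_injective a]

lemma cont {Φ : (ℕ → ℕ) → ℕ} {α : ℕ → ℕ} (h : Assoc Φ α) : Continuous Φ := by
  refine continuous_iff_continuousAt.2 fun f => ?_
  obtain ⟨k, hk⟩ := (h f).1
  have : ∀ᶠ g in nhds f, ∀ i ∈ Finset.range k, g i = f i :=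
    (Filter.eventually_all_finset _).2 fun i _ =>
      ((continuous_apply (A := fun _ : ℕ => ℕ) i).isOpen_preimage {f i}
        (isOpen_discrete _)).mem_nhds rfl
  refine (continuousAt_const (y := Φ f)).congr (this.mono fun g hg => ?_)
  have e : pre g k = pre f k := pre_congr fun i hi => hg i (Finset.mem_range.2 hi)
  have a := ((h g).2 k (by rwa [e])).1
  rw [e, ((h f).2 k hk).1] at a
  simpa using a

/-- The functional. -/
noncomputable def Phi (g : ℕ → ℕ → ℕ) (f : ℕ → ℕ) : ℕ :=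
  if ∃ m, (∀ j < m, f (j + 1) = 0) ∧ m < g (f (m + 1)) (f 0) then 1 else 0

/-- The associate computed from a prefix `l` of a name. -/
noncomputable def asc (g : ℕ → ℕ → ℕ) (l σ : List ℕ) : ℕ :=
  if ∃ m < σ.length - 1, (∀ j < m, σ.getD (j + 1) 0 = 0) ∧ m < g (σ.getD (m + 1) 0) (σ.getD 0 0)
  then 2
  else if (∃ m < σ.length - 1, σ.getD (m + 1) 0 ≠ 0) ∨
    ∃ j < σ.length, ∃ m < σ.length, l.getD j 0 = Nat.pair (σ.getD 0 0) m + 1 then 1 else 0

lemma asc_c {g : ℕ → ℕ → ℕ} (hg : Computable₂ g) :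
    Computable fun q : List ℕ × List ℕ => asc g q.1 q.2 := by
  have f := @Computable.fst
  have s := @Computable.snd
  have G := (Primrec.list_getD (0 : ℕ)).to_comp
  have L : Computable fun q : List ℕ × List ℕ => q.2.length := Computable.list_length.comp s
  have L' : Computable fun q : List ℕ × List ℕ => q.2.length - 1 :=
    Primrec.nat_sub.to_comp.comp L (Computable.const 1)
  have a : Computable fun q : (List ℕ × List ℕ) × ℕ => q.1.2.getD (q.2 + 1) 0 :=
    G.comp (s.comp f) (Computable.succ.comp s)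
  have z : Computable fun q : List ℕ × List ℕ => q.2.getD 0 0 := G.comp s (Computable.const 0)
  have b : Computable fun q : ((List ℕ × List ℕ) × ℕ) × ℕ =>
      Nat.pair (q.1.1.2.getD 0 0) q.2 + 1 :=
    Computable.succ.comp (Primrec₂.natPair.to_comp.comp (z.comp (f.comp f)) s)
  have c1 : ComputablePred fun q : (List ℕ × List ℕ) × ℕ =>
      ∀ j < q.2, q.1.2.getD (j + 1) 0 = 0 :=
    cball (p := fun (q : (List ℕ × List ℕ) × ℕ) j => q.1.2.getD (j + 1) 0 = 0) s
      (ceq (G.comp (s.comp (f.comp f)) (Computable.succ.comp s)) (Computable.const 0))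
  have c2 : ComputablePred fun q : (List ℕ × List ℕ) × ℕ =>
      q.2 < g (q.1.2.getD (q.2 + 1) 0) (q.1.2.getD 0 0) := clt s (hg.comp a (z.comp f))
  have c3 := cbex (p := fun (q : List ℕ × List ℕ) m => (∀ j < m, q.2.getD (j + 1) 0 = 0) ∧
      m < g (q.2.getD (m + 1) 0) (q.2.getD 0 0)) L' (cand c1 c2)
  have c4 := cbex (p := fun (q : List ℕ × List ℕ) m => q.2.getD (m + 1) 0 ≠ 0) L'
    (ceq a (Computable.const 0)).not
  have c5 := cbex (p := fun (q : (List ℕ × List ℕ) × ℕ) m =>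
      q.1.1.getD q.2 0 = Nat.pair (q.1.2.getD 0 0) m + 1) (L.comp f)
    (ceq (G.comp (f.comp (f.comp f)) (s.comp f)) b)
  have c6 := cbex (p := fun (q : List ℕ × List ℕ) j => ∃ m < q.2.length,
      q.1.getD j 0 = Nat.pair (q.2.getD 0 0) m + 1) L c5
  exact cite c3 (Computable.const 2) (cite (cor c4 c6) (Computable.const 1) (Computable.const 0))

lemma asc_eq (g : ℕ → ℕ → ℕ) (p f : ℕ → ℕ) (k : ℕ) : asc g (pre p k) (pre f k) =
    if ∃ m < k - 1, (∀ j < m, f (j + 1) = 0) ∧ m < g (f (m + 1)) (f 0) then 2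
    else if (∃ m < k - 1, f (m + 1) ≠ 0) ∨ ∃ j < k, ∃ m < k, p j = Nat.pair (f 0) m + 1
    then 1 else 0 := by
  unfold asc
  rw [pre_len]
  refine if_congr (exists_congr fun m => and_congr_right fun a =>
    and_congr (forall₂_congr fun j b => ?_) ?_) rfl (if_congr (or_congr
      (exists_congr fun m => and_congr_right fun a => ?_)
      (exists_congr fun m => and_congr_right fun a => ?_)) rfl rfl)
  · rw [pre_get f (by omega)]
  · rw [pre_get f (by omega), pre_get f (by omega)]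
  · rw [pre_get f (by omega)]
  · rw [pre_get f (by omega), pre_get p a]

lemma assoc {g : ℕ → ℕ → ℕ} {h p : ℕ → ℕ} (h0 : ∀ s n, g s n ≤ h n)
    (hp : Name {z | h z.unpair.1 ≤ z.unpair.2} p) : Assoc (Phi g) fun c =>
      asc g (pre p (Denumerable.ofNat (List ℕ) c).length) (Denumerable.ofNat (List ℕ) c) := by
  intro f
  simp only [Denumerable.ofNat_encode, pre_len]
  have h1 : ∀ k, asc g (pre p k) (pre f k) ≠ 0 → asc g (pre p k) (pre f k) = Phi g f + 1 := by
    intro k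
    rw [asc_eq, Phi]
    split_ifs with a b c d
    · simp
    · exact (b (a.imp fun _ u => u.2)).elim
    · obtain ⟨m, m1, m2⟩ := d
      refine (a ⟨m, ?_, m1, m2⟩).elim
      rcases c with ⟨r, r1, r2⟩ | ⟨j, -, r, r1, r2⟩
      · by_contra t
        exact r2 (m1 r (by omega))
      · have := (hp _).2 ⟨j, r2⟩
        have := h0 (f (m + 1)) (f 0)
        simp only [Set.mem_ofPred_eq, Nat.unpair_pair] at *
        omega
    all_goals simp
  have h2 : ∀ k, asc g (pre p k) (pre f k) ≠ 0 ↔ (∃ m < k - 1, (∀ j < m, f (j + 1) = 0) ∧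
      m < g (f (m + 1)) (f 0)) ∨ (∃ m < k - 1, f (m + 1) ≠ 0) ∨
        ∃ j < k, ∃ m < k, p j = Nat.pair (f 0) m + 1 := fun k => by
    rw [asc_eq]
    split_ifs with a b
    exacts [iff_of_true (by simp) (Or.inl a), iff_of_true (by simp) (Or.inr b),
      iff_of_false (by simp) (not_or.2 ⟨a, b⟩)]
  refine ⟨?_, fun k a => ⟨h1 k a, (h1 _ ((h2 _).2 ?_)).trans (h1 k a).symm⟩⟩
  · obtain ⟨j, hj⟩ := (hp (Nat.pair (f 0) (h (f 0)))).1 (by simp)
    exact ⟨j + h (f 0) + 1, (h2 _).2 (Or.inr (Or.inr ⟨j, by omega, _, by omega, hj⟩))⟩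
  · rcases (h2 k).1 a with ⟨m, u, v⟩ | ⟨m, u, v⟩ | ⟨j, u, m, v, w⟩
    exacts [Or.inl ⟨m, by omega, v⟩, Or.inr (Or.inl ⟨m, by omega, v⟩),
      Or.inr (Or.inr ⟨j, by omega, m, by omega, w⟩)]

theorem result : ∃ A : Set ℕ, (¬ ∃ p, Computable p ∧ Name A p) ∧
    (∀ y : ℕ → ℕ, (∃ e, ∀ p, Name A p → Out e p y) → Computable y) ∧
    ∃ Φ : (ℕ → ℕ) → ℕ, Continuous Φ ∧ (¬ ∃ α, Computable α ∧ Assoc Φ α) ∧
      ∃ e, ∀ p, Name A p → ∃ α, Out e p α ∧ Assoc Φ α := by
  obtain ⟨g, h, hg, g0, gh, hN, hQ⟩ := Qm.main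
  have f := @Computable.fst
  have s := @Computable.snd
  obtain ⟨p0, hp0, -⟩ := name_ext {z | h z.unpair.1 ≤ z.unpair.2} [] (by simp)
  refine ⟨{z | h z.unpair.1 ≤ z.unpair.2}, fun ⟨p, hp, np⟩ => ?_, fun y ⟨e, he⟩ =>
    hQ e y fun x v => ⟨fun ⟨τ, a, b⟩ => ?_, fun a => ?_⟩, Phi g, cont (assoc gh hp0),
    fun ⟨α, hα, a⟩ => ?_, ?_⟩
  · obtain ⟨r, r1, r2⟩ := csel (P := fun n (q : ℕ × ℕ) => p q.1 = Nat.pair n q.2 + 1)
      (ceq (hp.comp (f.comp s)) (Computable.succ.comp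
        (Primrec₂.natPair.to_comp.comp f (s.comp s)))) fun n => by
        obtain ⟨j, hj⟩ := (np (Nat.pair n (h n))).1 (by simp)
        exact ⟨(j, h n), hj⟩
    obtain ⟨t, n, hn⟩ := hN _ (s.comp r1)
    have := (np _).2 ⟨_, r2 n⟩
    have := gh t n
    simp only [Set.mem_ofPred_eq, Nat.unpair_pair] at *
    omega
  · obtain ⟨p, p1, p2⟩ := name_ext {z | h z.unpair.1 ≤ z.unpair.2} τ b
    exact (he p p1 x v).1 ⟨τ.length, by rwa [p2]⟩
  · obtain ⟨k, hk⟩ := (he p0 hp0 x v).2 a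
    refine ⟨_, hk, fun c hc z => ?_⟩
    obtain ⟨j, -, rfl⟩ := List.mem_map.1 hc
    exact (hp0 _).2 ⟨j, by omega⟩
  · obtain ⟨r, r1, r2⟩ := csel (P := fun n k =>
      α (Encodable.encode (pre (fun j => if j = 0 then n else 0) k)) ≠ 0)
      (ceq (hα.comp (Computable.encode.comp (cpre s (cite (ceq s (Computable.const 0))
        (f.comp f) (Computable.const 0)).to₂))) (Computable.const 0)).not fun n => (a _).1
    obtain ⟨t, n, hn⟩ := hN r r1
    have e : pre (fun j => if j = 0 then n else if j = r n + 1 then t else 0) (r n) =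
        pre (fun j => if j = 0 then n else 0) (r n) :=
      pre_congr fun i hi => by simp [show i ≠ r n + 1 by omega]
    have u := ((a _).2 _ (r2 n)).1
    have v := ((a _).2 (r n) (by rw [e]; exact r2 n)).1
    rw [e, u, Phi, Phi, if_neg (by simp [g0]), if_pos ⟨r n, fun j hj => by
      simp [show j ≠ r n by omega], by simpa using hn⟩] at v
    omega
  · have o := (Primrec.ofNat (List ℕ)).to_comp
    obtain ⟨e, he⟩ := Cm.idx (D := fun p q => q = fun c =>
      asc g (pre p (Denumerable.ofNat (List ℕ) c).length) (Denumerable.ofNat (List ℕ) c))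
      ⟨_, Op.mk' (E := fun q : List ℕ × ℕ × ℕ =>
        q.1.length = (Denumerable.ofNat (List ℕ) q.2.1).length ∧
          q.2.2 = asc g q.1 (Denumerable.ofNat (List ℕ) q.2.1))
        (CeAlg.cs (cand (ceq (Computable.list_length.comp f)
          (Computable.list_length.comp (o.comp (f.comp s))))
          (ceq (s.comp s) ((asc_c hg).comp (f.pair (o.comp (f.comp s))))))) fun _ _ => Iff.rfl,
        by rintro p _ rfl n y; simp⟩
    exact ⟨e, fun p hp => ⟨_, he _ _ rfl, assoc gh hp⟩⟩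

end Pool.Agent.Results.MP_9a65c4_lc.Yes
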